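import Pool.Agent.helper85.PG.Spec3

/-! # RZT: Ruzsa's dilation -/

set_option autoImplicit false

namespace Pool.Agent.helper85.PG

theorem RZT : RZT_stmt := by
  intro p hp m D hm
  have hpp : p.Prime := hp.out
  have hp1 : 1 < p := hpp.one_lt
  have hm0 : 0 < m := by omega
  classical
  set q : ℕ := (p - 1) / m with hq
  have hqm : q * m ≤ p - 1 := Nat.div_mul_le_self _ _
  let B1 : Finset (ZMod p) := (D ×ˢ Finset.Icc 1 q).image
    (fun x : ZMod p × ℕ => ((m * x.2 : ℕ) : ZMod p) / x.1)
  let B2 : Finset (ZMod p) := (D ×ˢ Finset.Icc 1 q).image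
    (fun x : ZMod p × ℕ => - (((m * x.2 : ℕ) : ZMod p)) / x.1)
  have h1 : B1.card ≤ D.card * q := by
    refine Finset.card_image_le.trans ?_
    rw [Finset.card_product, Nat.card_Icc]
    simp
  have h2 : B2.card ≤ D.card * q := by
    refine Finset.card_image_le.trans ?_
    rw [Finset.card_product, Nat.card_Icc]
    simp
  have h3 : (B1 ∪ B2).card < (Finset.univ.erase (0 : ZMod p)).card := by
    rw [Finset.card_erase_of_mem (Finset.mem_univ _), Finset.card_univ, ZMod.card]
    have h4 : (B1 ∪ B2).card ≤ 2 * D.card * q := by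
      refine (Finset.card_union_le _ _).trans ?_
      calc B1.card + B2.card ≤ D.card * q + D.card * q := add_le_add h1 h2
        _ = 2 * D.card * q := by ring
    rcases Nat.eq_zero_or_pos q with h0 | h0
    · rw [h0] at h4
      simp only [Nat.mul_zero] at h4
      omega
    · have h5 : 2 * D.card * q < m * q := Nat.mul_lt_mul_of_pos_right hm h0
      have h6 : m * q ≤ p - 1 := by rw [Nat.mul_comm]; exact hqm
      omega
  obtain ⟨t, ht1, ht2⟩ := Finset.exists_mem_notMem_of_card_lt_card h3
  refine ⟨t, (Finset.mem_erase.mp ht1).1, ?_⟩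
  intro d hd e he hed hme
  by_contra he0
  have hez : (e : ZMod p) ≠ 0 := by
    intro h
    rw [ZMod.intCast_zmod_eq_zero_iff_dvd] at h
    exact he0 (Int.eq_zero_of_abs_lt_dvd h he)
  have hd0 : d ≠ 0 := by
    rintro rfl
    rw [mul_zero] at hed
    exact hez hed
  have ht : t = (e : ZMod p) / d := by
    rw [hed]
    field_simp
  apply ht2
  -- write |e| = m * k
  obtain ⟨k, hk⟩ : (m : ℕ) ∣ e.natAbs := by
    exact Int.natCast_dvd.mp hme
  have hk1 : 1 ≤ k := by
    rcases Nat.eq_zero_or_pos k with h | h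
    · rw [h, Nat.mul_zero] at hk
      exact absurd (Int.natAbs_eq_zero.mp hk) he0
    · exact h
  have hk2 : k ≤ q := by
    rw [hq, Nat.le_div_iff_mul_le hm0]
    have h7 : (e.natAbs : ℤ) < p := by
      rw [Int.natCast_natAbs]
      exact he
    have h8 : e.natAbs < p := by exact_mod_cast h7
    rw [hk] at h8
    rw [Nat.mul_comm]
    omega
  have hmem : (d, k) ∈ D ×ˢ Finset.Icc 1 q :=
    Finset.mem_product.mpr ⟨hd, Finset.mem_Icc.mpr ⟨hk1, hk2⟩⟩
  rcases Int.natAbs_eq e with h | h
  · apply Finset.mem_union_left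
    refine Finset.mem_image.mpr ⟨(d, k), hmem, ?_⟩
    rw [ht, h]
    simp only
    rw [hk]
    push_cast
    ring
  · apply Finset.mem_union_right
    refine Finset.mem_image.mpr ⟨(d, k), hmem, ?_⟩
    rw [ht, h]
    simp only
    rw [hk]
    push_cast
    ring

end Pool.Agent.helper85.PG
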