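import Pool.Agent.helper85.PG.Spec5
import Pool.Agent.helper85.PG.Basic
import Pool.Agent.helper57.PG.CB

/-! # SPS: the sparse part -/

set_option autoImplicit false

namespace Pool.Agent.helper85.PG

open Module Pointwise

theorem SPS (hPKC : PKC_stmt) (hCTS : CTS_stmt) : SPS_stmt := by
  intro d ε σ hε hσ
  obtain ⟨ζ, p1, hζ, hCT⟩ := hCTS d σ hσ
  set e0 : ℝ := min ε 1 with he0
  have he0pos : 0 < e0 := lt_min hε one_pos
  have he01 : e0 ≤ 1 := min_le_right _ _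
  have he0ε : e0 ≤ ε := min_le_left _ _
  have hd0 : (0 : ℝ) ≤ d := Nat.cast_nonneg d
  have hd1 : (0 : ℝ) < (d : ℝ) + 1 := by linarith
  set τ : ℝ := min (e0 / (4 * ((d : ℝ) + 1))) (ζ / (16 * ((d : ℝ) + 1))) with hτ
  have hτ0 : 0 < τ := lt_min (by positivity) (by positivity)
  have hτe : τ * (4 * ((d : ℝ) + 1)) ≤ e0 := by
    have h : τ ≤ e0 / (4 * ((d : ℝ) + 1)) := min_le_left _ _
    rwa [le_div_iff₀ (by positivity)] at h
  have hτζ : τ * (16 * ((d : ℝ) + 1)) ≤ ζ := by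
    have h : τ ≤ ζ / (16 * ((d : ℝ) + 1)) := min_le_right _ _
    rwa [le_div_iff₀ (by positivity)] at h
  obtain ⟨k, p2, δ, hk, hδ, key⟩ := Pool.Agent.helper82.Weil.asymp_three τ hτ0
  obtain ⟨p3, hp3⟩ := CB_large τ (3 + 3 ^ d) hτ0
  obtain ⟨p4, hp4⟩ := CB_large δ (5 ^ d) hδ
  obtain ⟨p5, hp5'⟩ := CB_large (ζ / 2) ((2 * 3 ^ d) ^ 2) (by positivity)
  refine ⟨ζ / 4, δ, max (max p1 (p2 + 1)) (max (max p3 p4) p5), by positivity, hδ, ?_⟩
  intro p _ hp P hP hPε hP3 B hNB hN2B hsp χ hχ s β hβ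
  have hpp1 : p1 ≤ p := (le_max_left _ _).trans ((le_max_left _ _).trans hp)
  have hpp2 : p2 < p := (le_max_right p1 (p2 + 1)).trans ((le_max_left _ _).trans hp)
  have hpp3 : p3 ≤ p :=
    (le_max_left _ _).trans ((le_max_left _ _).trans ((le_max_right _ _).trans hp))
  have hpp4 : p4 ≤ p :=
    (le_max_right _ _).trans ((le_max_left _ _).trans ((le_max_right _ _).trans hp))
  have hpp5 : p5 ≤ p := (le_max_right _ _).trans ((le_max_right _ _).trans hp)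
  replace hp3 := hp3 p hpp3
  replace hp4 := hp4 p hpp4
  replace hp5' := hp5' p hpp5
  replace key := key p hpp2
  have hprime : p.Prime := Fact.out
  have hX1 : (1 : ℝ) < p := by exact_mod_cast hprime.one_lt
  set X : ℝ := (p : ℝ) with hX
  have hX0 : 0 < X := by linarith
  set t0 : ℝ := X ^ τ with ht0
  have h3d : (1 : ℝ) ≤ 3 ^ d := one_le_pow₀ (by norm_num)
  have ht3 : 4 ≤ t0 := by linarith
  have ht00 : 0 < t0 := by linarith
  have ht01 : 1 ≤ t0 := by linarith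
  have ht3d : 3 ^ d < t0 := by linarith
  set U : ℝ := t0 ^ (4 * (d + 1)) with hU
  have hUe : U ≤ X ^ e0 := by
    rw [hU, ht0, ← Real.rpow_natCast, ← Real.rpow_mul hX0.le]
    refine Real.rpow_le_rpow_of_exponent_le hX1.le ?_
    push_cast
    exact hτe
  set N1 : ℝ := ((P 1).card : ℝ) with hN1
  set N2 : ℝ := (B.card : ℝ) with hN2
  have hUN1 : U ≤ N1 :=
    hUe.trans ((Real.rpow_le_rpow_of_exponent_le hX1.le he0ε).trans hPε)
  have hU1 : 1 ≤ U := one_le_pow₀ ht01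
  have hN10 : 0 < N1 := by linarith
  have hN20 : 0 < N2 := by
    by_contra hcon
    have h1 : N2 = 0 := le_antisymm (not_lt.1 hcon) (Nat.cast_nonneg _)
    rw [h1, mul_zero] at hN2B
    exact absurd (Real.rpow_pos_of_pos hX0 (1 - ζ / 4)) (not_lt.2 hN2B)
  -- sizes
  set μ : ℝ := (t0 ^ 2)⁻¹ with hμ
  have ht2 : 1 ≤ t0 ^ 2 := one_le_pow₀ ht01
  have hμ0 : 0 < μ := by positivity
  have hμ1 : μ ≤ 1 := inv_le_one_of_one_le₀ ht2
  set f : ℝ := ((P μ).card : ℝ) with hf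
  have hN1f : N1 ≤ (3 ^ d * t0 ^ (2 * d)) * f := by
    have h := (hPKC.2.2 p d P hP 1 μ zero_le_one hμ0).1
    refine h.trans (mul_le_mul_of_nonneg_right ?_ (Nat.cast_nonneg _))
    have h1 : 1 + 2 * 1 / μ ≤ 3 * t0 ^ 2 := by
      rw [hμ, div_inv_eq_mul]
      linarith
    calc (1 + 2 * 1 / μ) ^ d ≤ (3 * t0 ^ 2) ^ d := pow_le_pow_left₀ (by positivity) h1 d
      _ = _ := by rw [mul_pow, ← pow_mul]
  have hf2 : 2 ≤ f := by
    have h1 : 1 < f := by
      by_contra hcon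
      have hf1 : f ≤ 1 := not_lt.1 hcon
      have h2 : N1 ≤ 3 ^ d * t0 ^ (2 * d) := by
        refine hN1f.trans ?_
        exact mul_le_of_le_one_right (by positivity) hf1
      have h3 : 3 ^ d * t0 ^ (2 * d) < t0 * t0 ^ (2 * d) :=
        mul_lt_mul_of_pos_right ht3d (by positivity)
      have h4 : t0 * t0 ^ (2 * d) ≤ U := by
        rw [hU, ← pow_succ']
        exact pow_le_pow_right₀ ht01 (by omega)
      linarith
    rw [hf] at h1 ⊢
    exact_mod_cast h1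
  set M : Finset (ZMod p)ˣ := (Finset.univ : Finset (ZMod p)ˣ).filter
    (fun u : (ZMod p)ˣ => (u : ZMod p) ∈ P μ) with hM
  have hMcard : (M.card : ℝ) = f - 1 := by
    rw [hM, CB_units_card, Finset.card_erase_of_mem (hP.zero_mem hμ0.le),
      Nat.cast_sub (hP.card_pos hμ0.le), Nat.cast_one]
  have hMf : f ≤ 2 * M.card := by rw [hMcard]; linarith
  have hMpos : (0 : ℝ) < M.card := by rw [hMcard]; linarith
  have hmN1 : N1 ≤ (2 * 3 ^ d) * t0 ^ (2 * d) * M.card := by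
    refine hN1f.trans ?_
    calc (3 ^ d * t0 ^ (2 * d)) * f ≤ (3 ^ d * t0 ^ (2 * d)) * (2 * M.card) :=
          mul_le_mul_of_nonneg_left hMf (by positivity)
      _ = _ := by ring
  -- the set T
  set n : ℕ := ⌊2 * t0⌋₊ with hn
  have hn1 : (n : ℝ) ≤ 2 * t0 := Nat.floor_le (by positivity)
  have hn2 : 2 * t0 < n + 1 := Nat.lt_floor_add_one _
  have hUX : U ≤ X := by
    refine hUe.trans ?_
    calc X ^ e0 ≤ X ^ (1 : ℝ) := Real.rpow_le_rpow_of_exponent_le hX1.le he01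
      _ = X := Real.rpow_one X
  have h2t : 2 * t0 < t0 ^ 2 := by
    rw [sq]
    exact mul_lt_mul_of_pos_right (by linarith) ht00
  have hnp : n < p := by
    have h1 : t0 ^ 2 ≤ U := by
      rw [hU]
      exact pow_le_pow_right₀ ht01 (by omega)
    have h2 : (n : ℝ) < p := by
      calc (n : ℝ) ≤ 2 * t0 := hn1
        _ < t0 ^ 2 := h2t
        _ ≤ X := h1.trans hUX
    exact_mod_cast h2
  set T : Finset (ZMod p) := (Finset.Icc 1 n).image (fun y : ℕ => (y : ZMod p)) with hT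
  have hTcard : T.card = n := CB_classes (p := p) n hnp
  set B' : Finset (ZMod p) := B.image (fun b => b + s) with hB
  have hBcard : B'.card = B.card := Finset.card_image_of_injective _ (add_left_injective s)
  -- the pair bound
  have habs : ∀ a ∈ P 1, ∀ m ∈ M, ∀ t ∈ T, a - (m : ZMod p) * t ∈ P 2 := by
    intro a ha m hm t ht
    rw [hM, Finset.mem_filter] at hm
    rw [hT, Finset.mem_image] at ht
    obtain ⟨y, hy, rfl⟩ := ht
    rw [Finset.mem_Icc] at hy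
    have h1 := hP.nat_mul_mem hm.2 y
    have h2 : (y : ℝ) * μ ≤ 1 := by
      have h3 : (y : ℝ) ≤ t0 ^ 2 := by
        have h4 : (y : ℝ) ≤ n := by exact_mod_cast hy.2
        exact h4.trans (hn1.trans h2t.le)
      rw [hμ]
      calc (y : ℝ) * (t0 ^ 2)⁻¹ ≤ t0 ^ 2 * (t0 ^ 2)⁻¹ :=
            mul_le_mul_of_nonneg_right h3 (by positivity)
        _ = 1 := mul_inv_cancel₀ (by positivity)
    have h5 := hP.sub_mem ha (hP.mono h2 h1)
    rw [mul_comm (m : ZMod p)]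
    have h6 : (1 : ℝ) + 1 = 2 := by norm_num
    rw [h6] at h5
    exact h5
  have hpb := Pool.Agent.helper46.PY.pair_bound χ hχ (P 1) (P 2) T B' M habs
    (fun b => β (b - s)) (fun b => hβ _) k hk
  rw [ZMod.card] at hpb
  -- collisions
  have hcol := hCT p hpp1 P hP hP3 B' (by
      rw [hBcard]
      refine hNB.trans (mul_le_mul_of_nonneg_right ?_ (Nat.cast_nonneg _))
      exact Real.rpow_le_rpow_of_exponent_le hX1.le (by linarith)) (by
      intro t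
      refine le_trans ?_ (hsp (t - s))
      have h1 : (B'.filter fun b => b - t ∈ P (1 / 2)) ⊆
          (B.filter fun b => b - (t - s) ∈ P (1 / 2)).image (fun b => b + s) := by
        intro b hb
        rw [Finset.mem_filter, hB, Finset.mem_image] at hb
        obtain ⟨⟨c, hc, rfl⟩, hb2⟩ := hb
        refine Finset.mem_image.2 ⟨c, Finset.mem_filter.2 ⟨hc, ?_⟩, rfl⟩
        have h2 : c - (t - s) = c + s - t := by ring
        rw [h2]
        exact hb2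
      exact_mod_cast (Finset.card_le_card h1).trans Finset.card_image_le) M (by
      intro m hm
      rw [hM, Finset.mem_filter] at hm
      exact hP.mono hμ1 hm.2)
  set Y : ℝ := ∑ z : ZMod p × ZMod p,
    (∑ t ∈ M, (Pool.Agent.helper46.PY.cnt (P 2) B' (t • z) : ℝ)) ^ 2 with hY
  have hY0 : 0 ≤ Y := Finset.sum_nonneg fun _ _ => sq_nonneg _
  rw [hBcard] at hcol
  have hp5 : ((P 2).card : ℝ) ≤ 5 ^ d * N1 := by
    have h := (hPKC.2.2 p d P hP 2 1 (by norm_num) one_pos).1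
    have h1 : (1 : ℝ) + 2 * 2 / 1 = 5 := by norm_num
    rw [h1] at h
    exact h
  have hπ : N1 ≤ ((P 2).card : ℝ) := by
    rw [hN1]
    exact_mod_cast Finset.card_le_card (hP.mono (by norm_num))
  have hfin : Y * X ^ (1 + τ) ≤ ((M.card : ℝ) * (P 2).card * N2 ^ 2) ^ 2 := by
    have hq0 : (0 : ℝ) ≤ ((P 2).card : ℝ) := Nat.cast_nonneg _
    -- lower bound of the right hand side
    have hm0 : (0 : ℝ) ≤ M.card := hMpos.le
    have hl1 : N1 * N1 ≤ ((2 * 3 ^ d) * t0 ^ (2 * d) * M.card) * ((P 2).card : ℝ) :=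
      mul_le_mul hmN1 hπ hN10.le (by positivity)
    have hl2 : (N1 * N1) ^ 2 ≤ (((2 * 3 ^ d) * t0 ^ (2 * d) * M.card) * ((P 2).card : ℝ)) ^ 2 :=
      pow_le_pow_left₀ (by positivity) hl1 2
    have hl3 : N1 ^ 4 * N2 ^ 4 ≤ ((2 * 3 ^ d) ^ 2 * t0 ^ (4 * d)) *
        ((M.card : ℝ) * (P 2).card * N2 ^ 2) ^ 2 := by
      calc N1 ^ 4 * N2 ^ 4 = (N1 * N1) ^ 2 * N2 ^ 4 := by ring
        _ ≤ (((2 * 3 ^ d) * t0 ^ (2 * d) * M.card) * ((P 2).card : ℝ)) ^ 2 * N2 ^ 4 :=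
            mul_le_mul_of_nonneg_right hl2 (by positivity)
        _ = _ := by ring
    have hc0 : 0 < (2 * 3 ^ d : ℝ) ^ 2 * t0 ^ (4 * d) := by positivity
    -- the exponent
    have hexp : (2 * 3 ^ d : ℝ) ^ 2 * t0 ^ (4 * d) * (X ^ (-ζ) * X ^ (1 + τ)) ≤
        X ^ (1 - ζ / 4) := by
      have h1 : t0 ^ (4 * d) = X ^ (τ * (4 * d)) := by
        rw [ht0, ← Real.rpow_natCast, ← Real.rpow_mul hX0.le]
        push_cast
        ring_nf
      calc (2 * 3 ^ d : ℝ) ^ 2 * t0 ^ (4 * d) * (X ^ (-ζ) * X ^ (1 + τ))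
          ≤ X ^ (ζ / 2) * t0 ^ (4 * d) * (X ^ (-ζ) * X ^ (1 + τ)) := by
            refine mul_le_mul_of_nonneg_right ?_ (by positivity)
            exact mul_le_mul_of_nonneg_right hp5' (by positivity)
        _ = X ^ (ζ / 2 + τ * (4 * d) + (-ζ + (1 + τ))) := by
            rw [h1, ← Real.rpow_add hX0, ← Real.rpow_add hX0, ← Real.rpow_add hX0]
        _ ≤ X ^ (1 - ζ / 4) := by
            refine Real.rpow_le_rpow_of_exponent_le hX1.le ?_
            nlinarith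
    have h6 : ((2 * 3 ^ d : ℝ) ^ 2 * t0 ^ (4 * d)) * (Y * X ^ (1 + τ)) ≤
        ((2 * 3 ^ d : ℝ) ^ 2 * t0 ^ (4 * d)) *
          ((M.card : ℝ) * (P 2).card * N2 ^ 2) ^ 2 := by
      refine le_trans ?_ hl3
      have hXt : 0 ≤ X ^ (1 + τ) := Real.rpow_nonneg hX0.le _
      calc ((2 * 3 ^ d : ℝ) ^ 2 * t0 ^ (4 * d)) * (Y * X ^ (1 + τ))
          ≤ ((2 * 3 ^ d : ℝ) ^ 2 * t0 ^ (4 * d)) *
            ((X ^ (-ζ) * (N1 ^ 2 * N2 ^ 3)) * X ^ (1 + τ)) :=
            mul_le_mul_of_nonneg_left (mul_le_mul_of_nonneg_right hcol hXt) hc0.le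
        _ = ((2 * 3 ^ d : ℝ) ^ 2 * t0 ^ (4 * d) * (X ^ (-ζ) * X ^ (1 + τ))) *
            (N1 ^ 2 * N2 ^ 3) := by ring
        _ ≤ X ^ (1 - ζ / 4) * (N1 ^ 2 * N2 ^ 3) :=
            mul_le_mul_of_nonneg_right hexp (by positivity)
        _ ≤ (N1 ^ 2 * N2) * (N1 ^ 2 * N2 ^ 3) :=
            mul_le_mul_of_nonneg_right hN2B (by positivity)
        _ = _ := by ring
    exact le_of_mul_le_mul_left h6 hc0
  have hTt : X ^ τ < (T.card : ℝ) := by
    rw [hTcard]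
    linarith
  set S : ZMod p → ℂ := fun a => ∑ b ∈ B, β b * χ (a + b + s) with hS
  have hSB : ∀ a, ∑ b ∈ B', β (b - s) * χ (a + b) = S a := by
    intro a
    rw [hB, Finset.sum_image (fun x _ y _ h => add_left_injective s h), hS]
    refine Finset.sum_congr rfl fun b _ => ?_
    rw [add_sub_cancel_right, ← add_assoc]
  set EE : ℝ := ∑ a ∈ P 1, ‖S a‖ ^ 2 with hEE
  have hEE0 : 0 ≤ EE := Finset.sum_nonneg fun _ _ => sq_nonneg _
  have hEEb : EE ≤ (X ^ (-δ) * N2) ^ 2 * N1 := by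
    refine key (M.card : ℝ) (T.card : ℝ) N1 ((P 2).card : ℝ) N2 Y EE hMpos hTt hN10.le
      (Nat.cast_nonneg _) ?_ hN20.le hY0 hEE0 ?_ hfin
    · exact hp5.trans (mul_le_mul_of_nonneg_right hp4 hN10.le)
    · have h1 : EE = ∑ a ∈ P 1, ‖∑ b ∈ B', β (b - s) * χ (a + b)‖ ^ 2 := by
        rw [hEE]
        refine Finset.sum_congr rfl fun a _ => ?_
        rw [hSB]
      rw [h1, hN2, ← hBcard]
      exact hpb
  -- Cauchy-Schwarz
  have hXδ : 0 ≤ X ^ (-δ) := Real.rpow_nonneg hX0.le _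
  have hS0 : 0 ≤ ∑ a ∈ P 1, ‖S a‖ := Finset.sum_nonneg fun _ _ => norm_nonneg _
  have hR0 : 0 ≤ X ^ (-δ) * (N1 * N2) := mul_nonneg hXδ (mul_nonneg hN10.le hN20.le)
  refine (pow_le_pow_iff_left₀ hS0 hR0 two_ne_zero).1 ?_
  calc (∑ a ∈ P 1, ‖S a‖) ^ 2 ≤ ((P 1).card : ℝ) * ∑ a ∈ P 1, ‖S a‖ ^ 2 := sq_sum_le_card_mul_sum_sq
    _ ≤ N1 * ((X ^ (-δ) * N2) ^ 2 * N1) := mul_le_mul_of_nonneg_left hEEb hN10.le
    _ = _ := by ring

end Pool.Agent.helper85.PG
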